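import Pool.Agent.Helper13.OPG.WR
import Pool.Agent.Helper10.UL.Gen4

/-!
# Project OPG: the reduction to the key statement
-/

universe u v w

namespace Pool.Agent.OPG

open IntermediateField Pool.Agent.Helper37.UL UL Pool.Agent.OPN

/-- ultrafilters on a family which is Zariski dense over `F` -/
private theorem exists_ultra45 {F : Type u} [Field F] {K : Type v} {J : Type w} (vv : J → K → F)
    (hS : ∀ Ψ : MvPolynomial K F, Ψ ≠ 0 → ∃ j, MvPolynomial.eval (vv j) Ψ ≠ 0) :
    ∃ U : Ultrafilter J, ∀ Ψ : MvPolynomial K F, Ψ ≠ 0 →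
      ∀ᶠ j in (U : Filter J), MvPolynomial.eval (vv j) Ψ ≠ 0 := by
  classical
  obtain ⟨U, hU⟩ := Ultrafilter.exists_ultrafilter_of_finite_inter_nonempty
    {A : Set J | ∃ Ψ : MvPolynomial K F, Ψ ≠ 0 ∧ A = {j | MvPolynomial.eval (vv j) Ψ ≠ 0}} (by
    intro T hT
    have hT' : ∀ A ∈ T, ∃ Ψ : MvPolynomial K F, Ψ ≠ 0 ∧
      A = {j | MvPolynomial.eval (vv j) Ψ ≠ 0} := fun A hA => hT hA
    choose! Ψ hΨ0 hΨ using hT'
    obtain ⟨j, ha0⟩ := hS (∏ A ∈ T, Ψ A) (Finset.prod_ne_zero_iff.mpr hΨ0)
    rw [map_prod, Finset.prod_ne_zero_iff] at ha0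
    refine ⟨j, ?_⟩
    rw [Set.mem_sInter]
    intro A hA
    rw [hΨ A hA]
    exact ha0 A hA)
  exact ⟨U, fun Ψ hΨ => hU ⟨Ψ, hΨ, rfl⟩⟩

/-- a permutation with three given values -/
private theorem exists_perm45 {m : ℕ} {l i j : Fin (m + 3)} (hil : i ≠ l) (hjl : j ≠ l) (hij : i ≠ j) :
    ∃ g : Fin (m + 3) ≃ Fin (m + 3), g 0 = l ∧ g 1 = i ∧ g (Fin.last _) = j := by
  have h01 : (0 : Fin (m + 3)) ≠ 1 := by
    intro h
    have := congrArg Fin.val h
    simp at this
  have h0l : (0 : Fin (m + 3)) ≠ Fin.last _ := by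
    intro h
    have := congrArg Fin.val h
    simp at this
  have h1l : (1 : Fin (m + 3)) ≠ Fin.last _ := by
    intro h
    have := congrArg Fin.val h
    simp at this
  obtain ⟨i', hi'⟩ : ∃ i', i' = Equiv.swap 0 l i := ⟨_, rfl⟩
  obtain ⟨j', hj'⟩ : ∃ j', j' = Equiv.swap 0 l j := ⟨_, rfl⟩
  have hi0 : i' ≠ 0 := by
    intro h
    have h1 : Equiv.swap 0 l i' = i := by rw [hi', Equiv.swap_apply_self]
    rw [h, Equiv.swap_apply_left] at h1
    exact hil h1.symm
  have hj0 : j' ≠ 0 := by
    intro h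
    have h1 : Equiv.swap 0 l j' = j := by rw [hj', Equiv.swap_apply_self]
    rw [h, Equiv.swap_apply_left] at h1
    exact hjl h1.symm
  have hij' : i' ≠ j' := by
    intro h
    rw [hi', hj'] at h
    exact hij ((Equiv.swap 0 l).injective h)
  obtain ⟨k, hk⟩ : ∃ k, k = Equiv.swap 1 i' j' := ⟨_, rfl⟩
  have hk' : Equiv.swap 1 i' k = j' := by rw [hk, Equiv.swap_apply_self]
  have hk0 : k ≠ 0 := by
    intro h
    rw [h, Equiv.swap_apply_of_ne_of_ne h01 (Ne.symm hi0)] at hk'
    exact hj0 hk'.symm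
  have hk1 : k ≠ 1 := by
    intro h
    rw [h, Equiv.swap_apply_left] at hk'
    exact hij' hk'
  refine ⟨(Equiv.swap (Fin.last _) k).trans ((Equiv.swap 1 i').trans (Equiv.swap 0 l)), ?_, ?_, ?_⟩
  · rw [Equiv.trans_apply, Equiv.swap_apply_of_ne_of_ne h0l (Ne.symm hk0), Equiv.trans_apply,
      Equiv.swap_apply_of_ne_of_ne h01 (Ne.symm hi0), Equiv.swap_apply_left]
  · rw [Equiv.trans_apply, Equiv.swap_apply_of_ne_of_ne h1l (Ne.symm hk1), Equiv.trans_apply,
      Equiv.swap_apply_left, hi', Equiv.swap_apply_self]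
  · rw [Equiv.trans_apply, Equiv.swap_apply_left, Equiv.trans_apply, hk', hj', Equiv.swap_apply_self]

section lin

variable {R : Type*} [CommRing R] {I : Type} {m : ℕ}

/-- the coefficients `a (i, 0) + u a (i, last)` and `a (i, e)` -/
private def lin45 (u : R) (a : I × Fin (m + 3) → R) (q : I × Fin (m + 2)) : R :=
  if q.2 = 0 then a (q.1, 0) + u * a (q.1, Fin.last _) else a (q.1, q.2.castSucc)

end lin

section

variable {F : Type u} [Field F] {I : Type} {m : ℕ}

/-- the substitution -/
private noncomputable def linHom45 (I : Type) (m : ℕ) (u : F) :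
    MvPolynomial (I × Fin (m + 2)) F →ₐ[F] MvPolynomial (I × Fin (m + 3)) F :=
  MvPolynomial.bind₁ (lin45 (MvPolynomial.C u) fun q => MvPolynomial.X q)

private theorem linHom_injective45 (u : F) : Function.Injective (linHom45 I m u) := by
  have h1 : Function.LeftInverse (MvPolynomial.bind₁ fun q : I × Fin (m + 3) =>
      (Fin.lastCases (motive := fun _ => MvPolynomial (I × Fin (m + 2)) F) 0
        (fun e => MvPolynomial.X (q.1, e)) q.2)) (linHom45 I m u) := by
    intro Ψ
    unfold linHom45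
    rw [MvPolynomial.bind₁_bind₁]
    have h2 : (fun q : I × Fin (m + 2) => (MvPolynomial.bind₁ fun q : I × Fin (m + 3) =>
        (Fin.lastCases (motive := fun _ => MvPolynomial (I × Fin (m + 2)) F) 0
        (fun e => MvPolynomial.X (q.1, e)) q.2))
        (lin45 (MvPolynomial.C u) (fun q => MvPolynomial.X q) q)) = MvPolynomial.X := by
      funext q
      obtain ⟨i, e⟩ := q
      unfold lin45
      by_cases he : e = 0
      · subst he
        rw [if_pos rfl, map_add, map_mul, MvPolynomial.bind₁_X_right, MvPolynomial.bind₁_X_right]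
        rw [Fin.lastCases_last, mul_zero, add_zero]
        exact Fin.lastCases_castSucc (i := (0 : Fin (m + 2)))
      · rw [if_neg he, MvPolynomial.bind₁_X_right]
        exact Fin.lastCases_castSucc (i := e)
    rw [h2, MvPolynomial.bind₁_X_left]
    rfl
  exact h1.injective

private theorem eval_linHom45 (u : F) (a : I × Fin (m + 3) → F)
    (Ψ : MvPolynomial (I × Fin (m + 2)) F) :
    MvPolynomial.eval a (linHom45 I m u Ψ) = MvPolynomial.eval (lin45 u a) Ψ := by
  unfold linHom45
  rw [MvPolynomial.eval, MvPolynomial.eval₂Hom_bind₁]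
  congr 2
  funext q
  unfold lin45
  split_ifs
  · rw [map_add, map_mul, MvPolynomial.eval₂Hom_X', MvPolynomial.eval₂Hom_X',
      MvPolynomial.eval₂Hom_C, RingHom.id_apply]
  · rw [MvPolynomial.eval₂Hom_X']

end

section fields

variable {F k C : Type u} [Field F] [Field k] [Algebra F k] [Field C] [Algebra k C] [Algebra F C]
  [IsScalarTower F k C]

/-- `F(u)(s)` is generated by `F(s)` and `u` -/
private theorem range_eq45 (u : k) {n : ℕ} (s : Fin n → k) :
    (algebraMap (adjoin (adjoin F {u}) (Set.range s)) C).fieldRange =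
      Subfield.closure ((gn (algebraMap F C).fieldRange fun i => algebraMap k C (s i) : Set C) ∪
        {algebraMap k C u}) := by
  have hF : ∀ z : F, algebraMap F C z ∈ gn (algebraMap F C).fieldRange fun i => algebraMap k C (s i) :=
    fun z => le_gn ⟨z, rfl⟩
  apply le_antisymm
  · rintro _ ⟨z, rfl⟩
    have h1 : ∀ y ∈ (adjoin F {u}).toSubfield, algebraMap k C y ∈
        Subfield.closure ((gn (algebraMap F C).fieldRange fun i => algebraMap k C (s i) : Set C) ∪
        {algebraMap k C u}) := by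
      have h2 : (adjoin F {u}).toSubfield ≤ (Subfield.closure ((gn (algebraMap F C).fieldRange
          fun i => algebraMap k C (s i) : Set C) ∪ {algebraMap k C u})).comap (algebraMap k C) := by
        rw [adjoin_toSubfield, Subfield.closure_le]
        rintro y (⟨c, rfl⟩ | hy)
        · apply Subfield.subset_closure
          left
          rw [← IsScalarTower.algebraMap_apply F k C]
          exact hF c
        · rw [Set.mem_singleton_iff.mp hy]
          exact Subfield.subset_closure (Or.inr rfl)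
      exact fun y hy => h2 hy
    have h2 : (adjoin (adjoin F {u}) (Set.range s)).toSubfield ≤
        (Subfield.closure ((gn (algebraMap F C).fieldRange fun i => algebraMap k C (s i) : Set C) ∪
        {algebraMap k C u})).comap (algebraMap k C) := by
      rw [adjoin_toSubfield, Subfield.closure_le]
      rintro y (⟨c, rfl⟩ | ⟨i, rfl⟩)
      · exact h1 _ c.2
      · exact Subfield.subset_closure (Or.inl (mem_gn i))
    exact h2 z.2
  · rw [Subfield.closure_le]
    have hu : algebraMap k C u ∈ (algebraMap (adjoin (adjoin F {u}) (Set.range s)) C).fieldRange :=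
      ⟨algebraMap (adjoin F {u}) (adjoin (adjoin F {u}) (Set.range s))
        ⟨u, mem_adjoin_simple_self F u⟩, rfl⟩
    have hK : gn (algebraMap F C).fieldRange (fun i => algebraMap k C (s i)) ≤
        (algebraMap (adjoin (adjoin F {u}) (Set.range s)) C).fieldRange := by
      refine gn_le ?_ fun i => ⟨⟨s i, subset_adjoin _ _ ⟨i, rfl⟩⟩, rfl⟩
      rintro _ ⟨c, rfl⟩
      refine ⟨algebraMap (adjoin F {u}) (adjoin (adjoin F {u}) (Set.range s))
        (algebraMap F (adjoin F {u}) c), ?_⟩
      rw [IsScalarTower.algebraMap_apply F k C]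
      rfl
    rintro y (hy | hy)
    · exact hK hy
    · rw [Set.mem_singleton_iff.mp hy]
      exact hu

/-- `u` is transcendental over `F(s)` if `s` is independent over `F(u)` -/
private theorem transc45 {u : k} (hu : Transcendental F u) {n : ℕ} {s : Fin n → k}
    (hs : AlgebraicIndependent (adjoin F {u}) s) :
    Transcendental (gn (algebraMap F C).fieldRange fun i => algebraMap k C (s i))
      (algebraMap k C u) := by
  intro halg
  let x : Fin 1 → k := ![u]
  have hx : AlgebraicIndependent F x := algebraicIndependent_iff_transcendental.2 hu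
  have hr : Set.range x = {u} := by
    ext y
    constructor
    · rintro ⟨i, rfl⟩
      rw [Subsingleton.elim i 0]
      rfl
    · intro hy
      exact ⟨0, (Set.mem_singleton_iff.mp hy).symm⟩
  have hs' : AlgebraicIndependent (adjoin F (Set.range x)) s := by
    rw [hr]
    exact hs
  have h1 : AlgebraicIndependent F (Sum.elim s x) := by
    rw [AlgebraicIndependent.sumElim_iff, ← IntermediateField.algebraicIndependent_adjoin_iff]
    exact ⟨hx, hs'⟩
  have h2 : AlgebraicIndependent F (Sum.elim x s) := by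
    have h3 := h1.comp Sum.swap Sum.swap_leftInverse.injective
    have h4 : Sum.elim s x ∘ Sum.swap = Sum.elim x s := by
      funext i
      rcases i with i | i <;> rfl
    rwa [h4] at h3
  rw [AlgebraicIndependent.sumElim_iff, ← IntermediateField.algebraicIndependent_adjoin_iff] at h2
  have h3 : Transcendental (adjoin F (Set.range s)) u :=
    algebraicIndependent_iff_transcendental.1 h2.2
  apply h3
  have hle : gn (algebraMap F C).fieldRange (fun i => algebraMap k C (s i)) ≤
      (algebraMap (adjoin F (Set.range s)) C).fieldRange := by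
    refine gn_le ?_ fun i => ⟨⟨s i, subset_adjoin _ _ ⟨i, rfl⟩⟩, rfl⟩
    rintro _ ⟨c, rfl⟩
    refine ⟨algebraMap F (adjoin F (Set.range s)) c, ?_⟩
    rw [IsScalarTower.algebraMap_apply F k C]
    rfl
  have h4 := Pool.Agent.TD.isAlgebraic_range_iff.1 (isAlgebraic_mono hle halg)
  exact (isAlgebraic_algebraMap_iff (algebraMap k C).injective).1 h4

end fields

section pair

variable {F k : Type u} [Field F] [Field k] [Algebra F k]

omit [Field k] in
private theorem range_one45 (u : k) : Set.range (![u] : Fin 1 → k) = {u} := by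
  ext y
  constructor
  · rintro ⟨i, rfl⟩
    rw [Subsingleton.elim i 0]
    rfl
  · intro hy
    exact ⟨0, (Set.mem_singleton_iff.mp hy).symm⟩

private theorem pair45 {T u : k} (h : AlgebraicIndependent F ![T, u]) :
    Transcendental F u ∧ Transcendental (adjoin F {u}) T := by
  have h1 := h.comp (Sum.elim (fun _ : Fin 1 => (0 : Fin 2)) (fun _ : Fin 1 => 1)) (by
    rintro (a | a) (b | b) hab
    · rw [Subsingleton.elim a b]
    · exact absurd hab (by simp)
    · exact absurd hab (by simp)
    · rw [Subsingleton.elim a b])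
  have h2 : ![T, u] ∘ (Sum.elim (fun _ : Fin 1 => (0 : Fin 2)) (fun _ : Fin 1 => 1)) =
      Sum.elim ![T] ![u] := by
    funext i
    rcases i with i | i
    · rw [Subsingleton.elim i 0]
      rfl
    · rw [Subsingleton.elim i 0]
      rfl
  rw [h2, AlgebraicIndependent.sumElim_iff,
    ← IntermediateField.algebraicIndependent_adjoin_iff] at h1
  refine ⟨algebraicIndependent_iff_transcendental.1 h1.1, ?_⟩
  have h3 : AlgebraicIndependent (adjoin F (Set.range (![u] : Fin 1 → k))) ![T] := h1.2
  rw [range_one45] at h3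
  exact algebraicIndependent_iff_transcendental.1 h3

private theorem fg45 (hF : ∃ S : Finset F, Subfield.closure (S : Set F) = ⊤) (u : k) :
    ∃ S : Finset (adjoin F {u}), Subfield.closure (S : Set (adjoin F {u})) = ⊤ := by
  have h1 := RR.fg_adjoin hF ![u]
  rwa [range_one45] at h1

end pair

section core

/-- the argument over the field `F₁ = F(s)(u)` -/
private theorem core45 {F F₁ k : Type u} [Field F] [CharZero F] [Field F₁] [Field k] [Algebra F F₁]
    [Algebra F₁ k] [Algebra F k] [IsScalarTower F F₁ k] {I : Type} [Finite I] {P : (I → k) → Prop}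
    (hP : ∀ (c : k) (f : I → k), c ≠ 0 → P f → P fun q => c * f q) (key : KeyO k P)
    (hF₁ : ∃ S : Finset F₁, Subfield.closure (S : Set F₁) = ⊤) {m : ℕ} {w : Fin (m + 3) → k}
    (hw0 : w 0 ≠ 0) {T : k} (hTdef : T = w 1 / w 0) (hT : Transcendental F₁ T)
    [FiniteDimensional (adjoin F₁ {T}) k] {u : F₁} (hu : algebraMap F₁ k u = w (Fin.last _) / w 0)
    {Fh : Subfield (AlgebraicClosure k)} (hFFh : ∀ z : F, algebraMap F (AlgebraicClosure k) z ∈ Fh)
    (huFh : Transcendental Fh (algebraMap F₁ (AlgebraicClosure k) u))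
    (hrange : (algebraMap F₁ (AlgebraicClosure k)).fieldRange =
      Subfield.closure ((Fh : Set (AlgebraicClosure k)) ∪ {algebraMap F₁ (AlgebraicClosure k) u}))
    {J : Type u} {Uf : Ultrafilter J} {vv : J → I × Fin (m + 3) → F}
    (hUf : ∀ Ψ : MvPolynomial (I × Fin (m + 3)) F, Ψ ≠ 0 →
      ∀ᶠ j in (Uf : Filter J), MvPolynomial.eval (vv j) Ψ ≠ 0)
    (hall : ∀ j, P (PL.sysW w (vv j))) : False := by
  classical
  have hF₁0 : CharZero F₁ := charZero_of_injective_algebraMap (algebraMap F F₁).injective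
  have hk0 : CharZero k := charZero_of_injective_algebraMap (algebraMap F k).injective
  have hC0 : CharZero (AlgebraicClosure k) :=
    charZero_of_injective_algebraMap (algebraMap k (AlgebraicClosure k)).injective
  obtain ⟨κ, hκdef⟩ : ∃ κ : Subfield (AlgebraicClosure k),
    κ = (algebraicClosure F₁ (AlgebraicClosure k)).toSubfield := ⟨_, rfl⟩
  have hκ : ∀ c : AlgebraicClosure k, c ∈ κ ↔ IsAlgebraic F₁ c := fun c => by
    rw [hκdef]
    exact mem_algebraicClosure_iff
  -- division by `w 0`
  let w' : Fin (m + 2) → k := fun e => (w 0)⁻¹ * w e.castSucc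
  have hw'0 : w' 0 = 1 := inv_mul_cancel₀ hw0
  have hw'1 : w' 1 = T := by
    change (w 0)⁻¹ * w 1 = T
    rw [hTdef, div_eq_mul_inv, mul_comm]
  obtain ⟨n, q, htop, hq, hs⟩ := exists_splitW (C := AlgebraicClosure k) hT hκ w'
    (by rw [hw'0]; exact one_ne_zero)
  let c : F₁ := n
  have hcn : algebraMap F₁ k c = (n : k) := map_natCast _ _
  obtain ⟨T₁, hT₁⟩ : ∃ T₁ : k, T₁ = T - n := ⟨_, rfl⟩
  have hTT₁ : T = T₁ + algebraMap F₁ k c := by rw [hT₁, hcn, sub_add_cancel]
  have hadj : adjoin F₁ {T₁} = adjoin F₁ {T} := by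
    apply le_antisymm
    · rw [IntermediateField.adjoin_simple_le_iff, hT₁, ← hcn]
      exact sub_mem (IntermediateField.mem_adjoin_simple_self F₁ T)
        ((IntermediateField.adjoin F₁ {T}).algebraMap_mem c)
    · rw [IntermediateField.adjoin_simple_le_iff, hTT₁]
      exact add_mem (IntermediateField.mem_adjoin_simple_self F₁ T₁)
        ((IntermediateField.adjoin F₁ {T₁}).algebraMap_mem c)
  have hT₁t : Transcendental F₁ T₁ := by
    intro h
    apply hT
    rw [hTT₁]
    exact h.add (isAlgebraic_algebraMap c)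
  have htop₁ : adjoin F₁ {T₁, q} = ⊤ := by
    rw [eq_top_iff, ← htop, IntermediateField.adjoin_le_iff]
    rintro x (hx | hx)
    · rw [hx, SetLike.mem_coe, hTT₁]
      exact add_mem (IntermediateField.subset_adjoin F₁ _ (by simp))
        ((IntermediateField.adjoin F₁ {T₁, q}).algebraMap_mem c)
    · rw [Set.mem_singleton_iff.mp hx]
      exact IntermediateField.subset_adjoin F₁ _ (by simp)
  have hq₁ : IsAlgebraic (adjoin F₁ {T₁}) q := by
    rw [hadj]
    exact hq
  have hs₁ : TH.SplitAt κ (algebraMap k (AlgebraicClosure k) T₁)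
      (algebraMap k (AlgebraicClosure k) q) := by
    obtain ⟨e, P, r, h, R, h1, h2, h3, -⟩ := hs
    rw [hT₁]
    exact ⟨e, P, r, h1, h2, h3⟩
  have hfd : FiniteDimensional (adjoin F₁ {T₁}) k := by
    rw [hadj]
    infer_instance
  -- the substitution
  have ho : (1 : Fin (m + 2)) ≠ 0 := by
    intro h
    have := congrArg Fin.val h
    simp at this
  let w₁ : Fin (m + 2) → k := fun e => if e = 1 then w' e - algebraMap F₁ k c * w' 0 else w' e
  have hw₁0 : w₁ 0 = 1 := by
    simp only [w₁]
    rw [if_neg (Ne.symm ho), hw'0]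
  have hw₁1 : w₁ 1 = T₁ := by
    change (if (1 : Fin (m + 2)) = 1 then w' 1 - algebraMap F₁ k c * w' 0 else w' 1) = T₁
    rw [if_pos rfl, hw'0, hw'1, hT₁, hcn, mul_one]
  -- the coefficients
  let lv : J → I × Fin (m + 2) → F₁ := fun j => lin45 u fun q => algebraMap F F₁ (vv j q)
  have hlv : ∀ j, PL.sysW w' (lv j) = fun q => (w 0)⁻¹ * PL.sysW w (vv j) q := by
    intro j
    funext i
    unfold PL.sysW
    rw [Finset.mul_sum, Fin.sum_univ_castSucc (n := m + 2), Fin.sum_univ_succ (n := m + 1),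
      Fin.sum_univ_succ (n := m + 1)]
    have h1 : algebraMap F₁ k (lv j (i, 0)) = algebraMap F k (vv j (i, 0)) +
        w (Fin.last _) / w 0 * algebraMap F k (vv j (i, Fin.last _)) := by
      change algebraMap F₁ k (if (0 : Fin (m + 2)) = 0 then algebraMap F F₁ (vv j (i, 0)) +
        u * algebraMap F F₁ (vv j (i, Fin.last _)) else _) = _
      rw [if_pos rfl, map_add, map_mul, hu, ← IsScalarTower.algebraMap_apply,
        ← IsScalarTower.algebraMap_apply]
    have h2 : ∀ e : Fin (m + 1), algebraMap F₁ k (lv j (i, e.succ)) =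
        algebraMap F k (vv j (i, e.succ.castSucc)) := by
      intro e
      change algebraMap F₁ k (if e.succ = 0 then _ else algebraMap F F₁ (vv j (i, e.succ.castSucc))) = _
      rw [if_neg (Fin.succ_ne_zero e), ← IsScalarTower.algebraMap_apply]
    rw [h1, Finset.sum_congr rfl fun e _ => by rw [h2 e], hw'0]
    have h3 : ∀ e : Fin (m + 1), algebraMap F k (vv j (i, e.succ.castSucc)) * w' e.succ =
        (w 0)⁻¹ * (algebraMap F k (vv j (i, e.succ.castSucc)) * w e.succ.castSucc) := by
      intro e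
      change _ * ((w 0)⁻¹ * w e.succ.castSucc) = _
      ring
    rw [Finset.sum_congr rfl fun e _ => h3 e]
    change (_ + _) * 1 + _ = (w 0)⁻¹ * (algebraMap F k (vv j (i, 0)) * w 0) + _ + _
    field_simp
    ring
  let pv : J → I × Fin (m + 2) → F₁ := fun j => PL.subI 1 c (lv j)
  have hpall : ∀ j, P (PL.sysW w₁ (pv j)) := by
    intro j
    have h1 : PL.sysW w₁ (pv j) = PL.sysW w' (lv j) := PL.sysW_subst w' ho c (lv j)
    rw [h1, hlv]
    exact hP _ _ (inv_ne_zero hw0) (hall j)
  have hpgen : ∀ Ψ : MvPolynomial (I × Fin (m + 2)) F₁, Ψ ≠ 0 →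
      ∀ᶠ j in (Uf : Filter J), MvPolynomial.eval (pv j) Ψ ≠ 0 := by
    intro Ψ hΨ
    have h1 := UL.gen_extend (C := F₁) hUf (linHom45 I m u (PL.subIE I (m + 1) 1 ho c Ψ)) (by
      intro h0
      apply hΨ
      have h2 := linHom_injective45 (I := I) (m := m) u (h0.trans (map_zero _).symm)
      exact (PL.subIE I (m + 1) 1 ho c).injective (h2.trans (map_zero _).symm))
    filter_upwards [h1] with j hj h0
    apply hj
    rw [eval_linHom45, PL.eval_subIE]
    exact h0
  obtain ⟨S, _, π, hπ⟩ := exists_up Uf (AlgebraicClosure k)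
  refine key (F := F₁) hF₁ hT₁t hq₁ htop₁ hfd hκ hs₁ hw₁0 hw₁1 hπ hpgen ?_ hpall
  intro z hz hza
  have hcl : IsAlgClosed (AlgebraicClosure k) := inferInstance
  have ha : AlgebraicIndependent (Fh.map (UP.cst π))
      (xg π fun j q => algebraMap F (AlgebraicClosure k) (vv j q)) := by
    refine PL.algInd_mono ?_ (UL.algInd_xgC hπ fun Ψ hΨ => UL.gen_extend hUf Ψ hΨ)
    rintro _ ⟨y, -, rfl⟩
    exact ⟨y, rfl⟩
  have hcF : (UP.cst π) (n : AlgebraicClosure k) ∈ Fh.map (UP.cst π) :=
    ⟨(n : AlgebraicClosure k), natCast_mem Fh n, rfl⟩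
  have hst : ∀ y : F, algebraMap F₁ (AlgebraicClosure k) (algebraMap F F₁ y) =
      algebraMap F (AlgebraicClosure k) y := by
    intro y
    rw [IsScalarTower.algebraMap_apply F k (AlgebraicClosure k),
      IsScalarTower.algebraMap_apply F₁ k (AlgebraicClosure k),
      ← IsScalarTower.algebraMap_apply F F₁ k]
  rw [hrange] at hz hza
  refine wr hπ le_rfl huFh
    (a' := xg π fun j q => algebraMap F (AlgebraicClosure k) (vv j q))
    (fun q => ⟨_, fun j => hFFh _, rfl⟩) ha hcF ?_ ?_ ?_ hz hza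
  · rw [← hrange]
    rintro _ ⟨y, rfl⟩
    exact (hκ _).2 (isAlgebraic_algebraMap y)
  · intro i
    unfold xg
    rw [UP.cst_apply, UP.cst_apply, ← map_mul, ← map_mul, ← map_add, ← map_add]
    congr 1
    funext j
    change algebraMap F₁ (AlgebraicClosure k) (pv j (i, 0)) = algebraMap F _ (vv j (i, 0)) +
      (n : AlgebraicClosure k) * algebraMap F _ (vv j (i, 1)) +
      algebraMap F₁ _ u * algebraMap F _ (vv j (i, Fin.last _))
    have h1 : pv j (i, 0) = lv j (i, 0) + c * lv j (i, 1) := if_pos rfl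
    have h2 : lv j (i, 0) = algebraMap F F₁ (vv j (i, 0)) +
        u * algebraMap F F₁ (vv j (i, Fin.last _)) := if_pos rfl
    have h3 : lv j (i, 1) = algebraMap F F₁ (vv j (i, 1)) := if_neg ho
    rw [h1, h2, h3, map_add, map_add, map_mul, map_mul, hst, hst, hst, map_natCast]
    ring
  · intro i e
    unfold xg
    congr 1
    funext j
    change algebraMap F₁ (AlgebraicClosure k) (pv j (i, e.succ)) =
      algebraMap F _ (vv j (i, e.succ.castSucc))
    have h1 : pv j (i, e.succ) = lv j (i, e.succ) := if_neg (Fin.succ_ne_zero e)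
    have h2 : lv j (i, e.succ) = algebraMap F F₁ (vv j (i, e.succ.castSucc)) :=
      if_neg (Fin.succ_ne_zero e)
    rw [h1, h2, hst]

end core

section main

variable {F k : Type u} [Field F] [CharZero F] [Field k] [Algebra F k] {I : Type} [Finite I]

/-- the normalised case -/
private theorem norm45 {P : (I → k) → Prop}
    (hP : ∀ (c : k) (f : I → k), c ≠ 0 → P f → P fun q => c * f q) (key : KeyO k P)
    (hF : ∃ S : Finset F, Subfield.closure (S : Set F) = ⊤)
    (hk : ∃ S : Finset k, Subfield.closure (S : Set k) = ⊤) {m : ℕ} {w : Fin (m + 3) → k}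
    (hw0 : w 0 ≠ 0) (hT : AlgebraicIndependent F ![w 1 / w 0, w (Fin.last _) / w 0]) :
    ∃ Ψ : MvPolynomial (I × Fin (m + 3)) F, Ψ ≠ 0 ∧
      ∀ a : I × Fin (m + 3) → F, P (PL.sysW w a) → MvPolynomial.eval a Ψ = 0 := by
  classical
  by_contra hcon
  push Not at hcon
  have hk0 : CharZero k := charZero_of_injective_algebraMap (algebraMap F k).injective
  obtain ⟨Uf, hUf⟩ := exists_ultra45
    (fun j : {a : I × Fin (m + 3) → F // P (PL.sysW w a)} => j.1)
    (fun Ψ hΨ => by
      obtain ⟨a, ha, hne⟩ := hcon Ψ hΨ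
      exact ⟨⟨a, ha⟩, hne⟩)
  obtain ⟨T, hTdef⟩ : ∃ T : k, T = w 1 / w 0 := ⟨_, rfl⟩
  obtain ⟨u, hudef⟩ : ∃ u : k, u = w (Fin.last _) / w 0 := ⟨_, rfl⟩
  rw [← hTdef, ← hudef] at hT
  obtain ⟨huF, hTu⟩ := pair45 hT
  obtain ⟨n, s, hs, hTs, hfd⟩ := RR.exists_tower hk hTu
  have hF₁ := RR.fg_adjoin (fg45 hF u) s
  obtain ⟨Fh, hFh⟩ : ∃ Fh : Subfield (AlgebraicClosure k),
    Fh = gn (algebraMap F (AlgebraicClosure k)).fieldRange
      (fun i => algebraMap k (AlgebraicClosure k) (s i)) := ⟨_, rfl⟩
  have huFh : Transcendental Fh (algebraMap k (AlgebraicClosure k) u) := by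
    rw [hFh]
    exact transc45 huF hs
  have hrange : (algebraMap (adjoin (adjoin F {u}) (Set.range s)) (AlgebraicClosure k)).fieldRange =
      Subfield.closure ((Fh : Set (AlgebraicClosure k)) ∪ {algebraMap k (AlgebraicClosure k) u}) := by
    rw [hFh]
    exact range_eq45 u s
  obtain ⟨uF, huF1⟩ : ∃ y : adjoin (adjoin F {u}) (Set.range s),
      algebraMap (adjoin (adjoin F {u}) (Set.range s)) k y = u :=
    ⟨algebraMap (adjoin F {u}) _ ⟨u, mem_adjoin_simple_self F u⟩, rfl⟩
  have huC : algebraMap k (AlgebraicClosure k) u =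
      algebraMap (adjoin (adjoin F {u}) (Set.range s)) (AlgebraicClosure k) uF :=
    congrArg (algebraMap k (AlgebraicClosure k)) huF1.symm
  have htower : IsScalarTower F (adjoin (adjoin F {u}) (Set.range s)) k :=
    IsScalarTower.of_algebraMap_eq fun _ => rfl
  rw [huC] at huFh hrange
  exact core45 (F₁ := adjoin (adjoin F {u}) (Set.range s)) hP key hF₁ hw0 hTdef hTs
    (huF1.trans hudef) (fun z => by rw [hFh]; exact le_gn ⟨z, rfl⟩) huFh hrange hUf fun j => j.2

/-- **The reduction to the key statement.** -/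
theorem closed_of_key {P : (I → k) → Prop}
    (hP : ∀ (c : k) (f : I → k), c ≠ 0 → P f → P fun q => c * f q) (key : KeyO k P)
    (hF : ∃ S : Finset F, Subfield.closure (S : Set F) = ⊤)
    (hk : ∃ S : Finset k, Subfield.closure (S : Set k) = ⊤) {m : ℕ} {w : Fin (m + 1) → k}
    {i j l : Fin (m + 1)} (hT : AlgebraicIndependent F ![w i / w l, w j / w l]) :
    ∃ Ψ : MvPolynomial (I × Fin (m + 1)) F, Ψ ≠ 0 ∧
      ∀ a : I × Fin (m + 1) → F, P (PL.sysW w a) → MvPolynomial.eval a Ψ = 0 := by
  classical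
  have hl : w l ≠ 0 := by
    intro h0
    have h1 := hT.transcendental 0
    apply h1
    change IsAlgebraic F (w i / w l)
    rw [h0, div_zero]
    exact isAlgebraic_zero
  have hil : i ≠ l := by
    rintro rfl
    have h1 := hT.transcendental 0
    apply h1
    change IsAlgebraic F (w i / w i)
    rw [div_self hl]
    exact isAlgebraic_one
  have hjl : j ≠ l := by
    rintro rfl
    have h1 := hT.transcendental 1
    apply h1
    change IsAlgebraic F (w j / w j)
    rw [div_self hl]
    exact isAlgebraic_one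
  have hij : i ≠ j := by
    rintro rfl
    have h1 := hT.injective.ne (show (0 : Fin 2) ≠ 1 from by simp)
    exact h1 rfl
  obtain ⟨m', rfl⟩ : ∃ m', m = m' + 2 := by
    refine ⟨m - 2, ?_⟩
    by_contra hm
    have h1 := i.2
    have h2 := j.2
    have h3 := l.2
    have h4 : (i : ℕ) ≠ l := fun h => hil (Fin.ext h)
    have h5 : (j : ℕ) ≠ l := fun h => hjl (Fin.ext h)
    have h6 : (i : ℕ) ≠ j := fun h => hij (Fin.ext h)
    omega
  obtain ⟨g, hg0, hg1, hg2⟩ := exists_perm45 (m := m') hil hjl hij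
  obtain ⟨Ψ, hΨ, h⟩ := norm45 hP key hF hk (w := w ∘ g) (by
    change w (g 0) ≠ 0
    rw [hg0]; exact hl) (by
    change AlgebraicIndependent F ![w (g 1) / w (g 0), w (g (Fin.last _)) / w (g 0)]
    rw [hg0, hg1, hg2]; exact hT)
  refine ⟨MvPolynomial.rename (Equiv.prodCongr (Equiv.refl I) g) Ψ, fun h0 => hΨ
    (MvPolynomial.rename_injective _ (Equiv.injective _) (h0.trans (map_zero _).symm)),
    fun a ha => ?_⟩
  rw [MvPolynomial.eval_rename]
  apply h
  rw [PL.sysW_reindex]
  exact ha

end main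

end Pool.Agent.OPG
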